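import Pool.Agent.Helper44.HD.GoalsC
import Pool.Agent.Helper1.HD.TR

set_option autoImplicit false
set_option linter.unusedSectionVars false

open Finset
open scoped TensorProduct
open Pool.Agent.Helper44.HD
open Pool.Agent.Helper1.HD (ex ex_lt ex_top tr tc_eq)

namespace Pool.Agent.Helper64.HD

section

variable {k B S : Type} [Field k] [Ring B] [Algebra k B] [Fintype S] [DecidableEq S]

/-- the matrix of `b` -/
def mt (e : S → B) (b : B) : Matrix S S B := fun x y => e x * b * e y

/-- the word with entries `e (x i) a_i e (x (i+1))` -/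
def wd (e : S → B) (q : ℕ) (ι : Fin (q + 1) → S) (a : ℕ → B) : ℕ → B :=
  fun j => e (ex q ι j) * a j * e (ex q ι (j + 1))

theorem mt_mul (e : S → B) (h1 : ∀ x, e x * e x = e x) (h3 : ∑ x, e x = 1) (a b : B) :
    mt e (a * b) = mt e a * mt e b := by
  ext x y
  rw [Matrix.mul_apply]
  change e x * (a * b) * e y = ∑ c, (e x * a * e c) * (e c * b * e y)
  have h4 : ∀ c, (e x * a * e c) * (e c * b * e y) = e x * a * (e c * (b * e y)) := by
    intro c
    calc (e x * a * e c) * (e c * b * e y) = e x * a * ((e c * e c) * (b * e y)) := by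
          simp only [mul_assoc]
      _ = _ := by rw [h1 c]
  simp only [h4]
  rw [← mul_sum, ← sum_mul, h3, one_mul]
  simp only [mul_assoc]

theorem phi_coch (e : S → B) (q : ℕ) :
    Coch k q (fun a : ℕ → B => ∑ ι : Fin (q + 1) → S, tp k q (wd e q ι a)) := by
  refine Coch.sumc (k := k) univ (fun (ι : Fin (q + 1) → S) (a : ℕ → B) => tp k q (wd e q ι a))
    fun ι _ => ?_
  refine (tp_coch k q).comp (fun j a => e (ex q ι j) * a * e (ex q ι (j + 1))) ?_ ?_
  · intro i a b
    rw [mul_add, add_mul]
  · intro i c a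
    rw [mul_smul_comm, smul_mul_assoc]

/-- the projection to the composable words -/
noncomputable def PJ (k : Type) [Field k] {B : Type} [Ring B] [Algebra k B] (e : S → B) (q : ℕ) :
    HC k B q →ₗ[k] HC k B q := (phi_coch (k := k) e q).lin

theorem PJ_tp (e : S → B) (q : ℕ) (a : ℕ → B) :
    PJ k e q (tp k q a) = ∑ ι : Fin (q + 1) → S, tp k q (wd e q ι a) :=
  (phi_coch (k := k) e q).lin_tp a

theorem mt_ct (e : S → B) (h1 : ∀ x, e x * e x = e x) (h3 : ∑ x, e x = 1) (j : ℕ) (a : ℕ → B) :
    (fun i => mt e (ct j a i)) = ct j fun i => mt e (a i) := by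
  funext i
  simp only [ct]
  split_ifs
  · rfl
  · exact mt_mul e h1 h3 _ _
  · rfl

theorem mt_cy (e : S → B) (h1 : ∀ x, e x * e x = e x) (h3 : ∑ x, e x = 1) (m : ℕ) (a : ℕ → B) :
    (fun i => mt e (cy m a i)) = cy m fun i => mt e (a i) := by
  funext i
  simp only [cy]
  split_ifs
  · exact mt_mul e h1 h3 _ _
  · rfl

end

theorem pj : StmtPJ := by
  intro k B S _ _ _ _ _ e h1 h2 h3
  refine ⟨fun q => PJ k e q, ?_, ?_, ?_⟩
  · intro q z
    set U : Submodule k (HC k B q) := Submodule.span k {z | ∃ (x : ℕ → S) (a : ℕ → B),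
      (∀ i, i ≤ q → a i = e (x i) * a i * e (x (i + 1))) ∧ x (q + 1) = x 0 ∧ z = tp k q a} with hU
    have h4 : U.mkQ ∘ₗ PJ k e q = 0 := by
      refine HC_ext fun a => ?_
      rw [LinearMap.comp_apply, LinearMap.zero_apply, Submodule.mkQ_apply,
        Submodule.Quotient.mk_eq_zero, PJ_tp]
      refine Submodule.sum_mem _ fun ι _ => Submodule.subset_span ?_
      refine ⟨ex q ι, wd e q ι a, ?_, ?_, rfl⟩
      · intro i _
        unfold wd
        calc e (ex q ι i) * a i * e (ex q ι (i + 1)) =
            (e (ex q ι i) * e (ex q ι i)) * a i * (e (ex q ι (i + 1)) * e (ex q ι (i + 1))) := by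
              rw [h1, h1]
          _ = _ := by simp only [mul_assoc]
      · rw [ex_top, ex_lt _ (show 0 < q + 1 by omega)]
        rfl
    have h5 := LinearMap.congr_fun h4 z
    rw [LinearMap.comp_apply, LinearMap.zero_apply, Submodule.mkQ_apply,
      Submodule.Quotient.mk_eq_zero] at h5
    exact h5
  · intro q z hz
    have h4 : Submodule.span k {z | ∃ (x : ℕ → S) (a : ℕ → B),
        (∀ i, i ≤ q → a i = e (x i) * a i * e (x (i + 1))) ∧ x (q + 1) = x 0 ∧ z = tp k q a} ≤
        LinearMap.eqLocus (PJ k e q) LinearMap.id := by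
      rw [Submodule.span_le]
      rintro _ ⟨x, a, ha, hx, rfl⟩
      change PJ k e q (tp k q a) = tp k q a
      rw [PJ_tp, sum_eq_single (fun i : Fin (q + 1) => x i)]
      · refine (tp_coch k q).dep _ _ fun j hj => ?_
        unfold wd
        have e1 : ex q (fun i : Fin (q + 1) => x i) j = x j := by
          rw [ex_lt _ (show j < q + 1 by omega)]
        have e2 : ex q (fun i : Fin (q + 1) => x i) (j + 1) = x (j + 1) := by
          rcases Nat.lt_or_ge (j + 1) (q + 1) with h | h
          · rw [ex_lt _ h]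
          · obtain rfl : j = q := by omega
            rw [ex_top, hx]
            rfl
        rw [e1, e2]
        exact (ha j hj).symm
      · intro ι _ hι
        obtain ⟨i, hi⟩ := Function.ne_iff.1 hι
        refine (tp_coch k q).zero_entry _ (i : ℕ) (by omega) ?_
        unfold wd
        have e1 : ex q ι i = ι i := by
          rw [ex_lt _ i.2]
        rw [e1, ha i (by omega)]
        calc e (ι i) * (e (x i) * a i * e (x (i + 1))) * e (ex q ι (i + 1)) =
            (e (ι i) * e (x i)) * (a i * e (x (i + 1)) * e (ex q ι (i + 1))) := by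
              simp only [mul_assoc]
          _ = 0 := by rw [h2 _ _ hi, zero_mul]
      · intro h
        exact absurd (mem_univ _) h
    exact h4 hz
  · intro q z
    have h4 : bc k B q ∘ₗ PJ k e (q + 1) = PJ k e q ∘ₗ bc k B q := by
      refine HC_ext fun a => ?_
      rw [LinearMap.comp_apply, LinearMap.comp_apply, bc_tp, PJ_tp, ← sub_eq_zero]
      refine (Module.forall_dual_apply_eq_zero_iff k _).1 fun l => ?_
      have hφ : Coch k q (fun x : ℕ → B => l (tp k q x)) := (tp_coch k q).out l
      have ht := (tr k B S q (fun x : ℕ → B => l (tp k q x)) hφ).2 (fun i => mt e (a i))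
      have hb : ∀ y : ℕ → B, l (bch k q y) = dl q (fun x : ℕ → B => l (tp k q x)) y := by
        intro y
        unfold bch dl
        simp only [map_add, map_sum, map_smul, smul_eq_mul]
      have htc : ∀ y : ℕ → B, l (PJ k e q (tp k q y)) =
          tc q (fun x : ℕ → B => l (tp k q x)) (fun i => mt e (y i)) := by
        intro y
        rw [PJ_tp, map_sum, tc_eq]
        rfl
      have e1 : l (PJ k e q (bch k q a)) =
          dl q (tc q (fun x : ℕ → B => l (tp k q x))) (fun i => mt e (a i)) := by
        unfold bch dl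
        simp only [map_add, map_sum, map_smul, smul_eq_mul, htc, mt_ct e h1 h3, mt_cy e h1 h3]
      have e2 : l (bc k B q (∑ ι : Fin (q + 1 + 1) → S, tp k (q + 1) (wd e (q + 1) ι a))) =
          tc (q + 1) (dl q (fun x : ℕ → B => l (tp k q x))) (fun i => mt e (a i)) := by
        rw [map_sum, map_sum, tc_eq]
        refine sum_congr rfl fun ι _ => ?_
        rw [bc_tp, hb]
        rfl
      rw [map_sub, e1, e2, ht, sub_self]
    exact LinearMap.congr_fun h4 z

end Pool.Agent.Helper64.HD
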