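import Pool.Agent.Helper44.HD.GoalsQ

set_option autoImplicit false
set_option linter.unusedSectionVars false

open Finset
open scoped TensorProduct
open Pool.Agent.Helper44.HD

namespace Pool.Agent.Helper64.HD

theorem qe : StmtQE := by
  intro k G R M F v w _ _ _ _ _ _ D _ _ _ _ _ _ _ _ _ _ _ _ V W X Y q hq hsurj Z
  choose Z0 hZ0 using fun (i : w) (j : v) => hsurj (Z.1 i j)
  let FF : w → v → G × G → F := fun i j p =>
    ∑ a, ∑ b, (W.m p.1 i a * V.m p.2⁻¹ b j) • Y.π p (Z0 a b)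
  have hFF : ∀ i j, FF i j ∈ D.pr.RF F := by
    intro i j
    refine RF_sum D.pr univ (F := fun a p =>
      ∑ b, (W.m p.1 i a * V.m p.2⁻¹ b j) • Y.π p (Z0 a b)) fun a _ => ?_
    refine RF_sum D.pr univ (F := fun b p =>
      (W.m p.1 i a * V.m p.2⁻¹ b j) • Y.π p (Z0 a b)) fun b _ => ?_
    refine RF_mulf D.pr (f := fun p : G × G => W.m p.1 i a * V.m p.2⁻¹ b j) ?_ (Y.rat (Z0 a b))
    change (fun p : G × G => W.m p.1 i a * V.m p.2⁻¹ b j) ∈ D.O2
    exact Submodule.subset_span ⟨fun g => W.m g i a, W.rat i a, fun g => V.m g⁻¹ b j,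
      D.inv_mem _ (V.rat b j), rfl⟩
  let Y' : w → v → F := fun i j => D.pr.int (FF i j)
  have hY' : ∀ i j, D.pr.HI (FF i j) (Y' i j) := fun i j => int_spec D.pr (hFF i j)
  have hmem : Y' ∈ NN V W Y := by
    intro g0 h0 i j
    have h1 := HI_left D.pr (hFF i j) (hY' i j) (g0, h0)
    have h2 : D.pr.HI (fun p => ∑ a, ∑ b, (W.m g0 i a * V.m h0⁻¹ b j) • Y.π (g0, h0) (FF a b p))
        (∑ a, ∑ b, (W.m g0 i a * V.m h0⁻¹ b j) • Y.π (g0, h0) (Y' a b)) := by
      refine HI_sum D.pr univ (F := fun a p =>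
        ∑ b, (W.m g0 i a * V.m h0⁻¹ b j) • Y.π (g0, h0) (FF a b p)) fun a _ => ?_
      refine HI_sum D.pr univ (F := fun b p =>
        (W.m g0 i a * V.m h0⁻¹ b j) • Y.π (g0, h0) (FF a b p)) fun b _ => ?_
      exact HI_smul D.pr _ (HI_map D.pr (Y.π (g0, h0)) (hY' a b))
    have h3 : (fun p : G × G => FF i j ((g0, h0) * p)) =
        fun p => ∑ a, ∑ b, (W.m g0 i a * V.m h0⁻¹ b j) • Y.π (g0, h0) (FF a b p) := by
      funext p
      change ∑ a', ∑ b', (W.m (g0 * p.1) i a' * V.m (h0 * p.2)⁻¹ b' j) •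
          Y.π ((g0, h0) * p) (Z0 a' b') =
        ∑ a, ∑ b, (W.m g0 i a * V.m h0⁻¹ b j) • Y.π (g0, h0)
          (∑ a', ∑ b', (W.m p.1 a a' * V.m p.2⁻¹ b' b) • Y.π p (Z0 a' b'))
      have e1 : ∀ a' b', (W.m (g0 * p.1) i a' * V.m (h0 * p.2)⁻¹ b' j) •
          Y.π ((g0, h0) * p) (Z0 a' b') = ∑ a, ∑ b,
            ((W.m g0 i a * V.m h0⁻¹ b j) * (W.m p.1 a a' * V.m p.2⁻¹ b' b)) •
              Y.π (g0, h0) (Y.π p (Z0 a' b')) := by
        intro a' b'
        rw [W.mul, mul_inv_rev, V.mul, Matrix.mul_apply, Matrix.mul_apply, sum_mul_sum, map_mul,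
          Module.End.mul_apply, sum_smul]
        refine sum_congr rfl fun a _ => ?_
        rw [sum_smul]
        refine sum_congr rfl fun b _ => ?_
        congr 1
        ring
      simp only [e1, map_sum, map_smul, smul_sum, smul_smul]
      calc ∑ a', ∑ b', ∑ a, ∑ b, ((W.m g0 i a * V.m h0⁻¹ b j) * (W.m p.1 a a' * V.m p.2⁻¹ b' b)) •
              Y.π (g0, h0) (Y.π p (Z0 a' b'))
          = ∑ a', ∑ a, ∑ b, ∑ b', ((W.m g0 i a * V.m h0⁻¹ b j) *
              (W.m p.1 a a' * V.m p.2⁻¹ b' b)) • Y.π (g0, h0) (Y.π p (Z0 a' b')) := by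
            refine sum_congr rfl fun a' _ => ?_
            rw [sum_comm]
            refine sum_congr rfl fun a _ => ?_
            rw [sum_comm]
        _ = ∑ a, ∑ b, ∑ a', ∑ b', ((W.m g0 i a * V.m h0⁻¹ b j) *
              (W.m p.1 a a' * V.m p.2⁻¹ b' b)) • Y.π (g0, h0) (Y.π p (Z0 a' b')) := by
            rw [sum_comm]
            refine sum_congr rfl fun a _ => ?_
            rw [sum_comm]
    rw [h3] at h1
    exact HI_uniq D.pr h2 h1
  refine ⟨⟨Y', hmem⟩, ?_⟩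
  apply Subtype.ext
  funext i j
  rw [NNmap_apply]
  have h1 := HI_map D.pr (gl q) (hY' i j)
  have h2 : (fun p : G × G => gl q (FF i j p)) = fun _ => Z.1 i j := by
    funext p
    have h3 := Z.2 p.1 p.2 i j
    rw [← h3]
    change gl q (∑ a, ∑ b, (W.m p.1 i a * V.m p.2⁻¹ b j) • Y.π p (Z0 a b)) = _
    simp only [map_sum, map_smul, gl_apply, hq, hZ0]
  rw [h2] at h1
  exact HI_uniq D.pr h1 (HI_const D.pr (Z.1 i j))

end Pool.Agent.Helper64.HD
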